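import Pool.Agent.H76KP.Sharp

/-!
# All fixed-point-free permutations give extremal 3-graphs of the class

For `k ≥ 2` classes of `t` points and a fixed-point-free permutation `f` of the classes the missing
triples are those inside a class and those with two points in class `i` and one in class `f i`.
(Turán's construction is the cycle; for even `k` the involutions give disjoint unions of complete
3-graphs on two classes.)  All these 3-graphs satisfy the local conditions and are `K_{k+1}`-free.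
-/

open Finset

namespace CF75

open H76KP

section labels

variable {L : Type*}

lemma QQ_e3' {f : L → L} (h1 : ∀ i, f i ≠ i) (h3 : ∀ i j, f i = f j → i = j) {a b c d : L}
    (x1 : QQ f a b c) (x2 : QQ f a b d) (x3 : QQ f a c d) : QQ f b c d := by
  unfold QQ at *; grind

end labels

section graph

variable {V : Type*} [Fintype V] [DecidableEq V] {L : Type*}

lemma GG_noSingle' (b : V → L) {f : L → L} (h1 : ∀ i, f i ≠ i) (h3 : ∀ i j, f i = f j → i = j) :
    NoSingle (GG b f) := by
  intro a b' c d hn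
  simp only [List.nodup_cons, List.mem_cons, List.not_mem_nil, or_false, not_or,
    List.nodup_nil, and_true, not_false_eq_true] at hn
  obtain ⟨⟨ab, ac, ad⟩, ⟨bc, bd⟩, cd⟩ := hn
  rw [mem_GG ab ac bc, nmem_GG ab ad bd, nmem_GG ac ad cd, nmem_GG bc bd cd]
  rintro ⟨k1, k2, k3, k4⟩
  apply k1
  exact QQ_e3' h1 h3 (a := b d) (b := b a) (c := b b') (d := b c) (QQ12 (QQ23 k2))
    (QQ12 (QQ23 k3)) (QQ12 (QQ23 k4))

end graph

/-- the class of a point of `Fin (k * t)`: blocks of `t` consecutive points -/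
def lab (k t : ℕ) (x : Fin (k * t)) : Fin k := (finProdFinEquiv.symm x).1

lemma lab_card (k t : ℕ) (i : Fin k) : (univ.filter (fun x => lab k t x = i)).card = t := by
  have : (univ.filter (fun x => lab k t x = i)) =
      (univ : Finset (Fin t)).map ⟨fun j => finProdFinEquiv (i, j), fun j j' h => by
        have := finProdFinEquiv.injective h
        simpa using this⟩ := by
    ext x
    rw [mem_filter, mem_map]
    constructor
    · rintro ⟨-, hx⟩
      refine ⟨(finProdFinEquiv.symm x).2, mem_univ _, ?_⟩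
      change finProdFinEquiv (i, (finProdFinEquiv.symm x).2) = x
      rw [← hx]
      exact finProdFinEquiv.apply_symm_apply x
    · rintro ⟨j, -, rfl⟩
      refine ⟨mem_univ _, ?_⟩
      change (finProdFinEquiv.symm (finProdFinEquiv (i, j))).1 = i
      rw [finProdFinEquiv.symm_apply_apply]
  rw [this, Finset.card_map, Finset.card_univ, Fintype.card_fin]

/-- **All fixed-point-free permutations.** -/
theorem known_perm (m : ℕ) (hm : 3 ≤ m) (f : Equiv.Perm (Fin (m - 1))) (hf : ∀ i, f i ≠ i)
    (t : ℕ) :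
    ∃ G : Finset (Finset (Fin ((m - 1) * t))),
      (∀ x y z, x ≠ y → x ≠ z → y ≠ z → (({x, y, z} : Finset (Fin ((m - 1) * t))) ∈ G ↔
        ¬ QQ f (lab (m - 1) t x) (lab (m - 1) t y) (lab (m - 1) t z))) ∧
      Is3 G ∧ KFree m G ∧ NoSingle G ∧ LinkCond G ∧
      (1 - 4 / ((m : ℝ) - 1) ^ 2) * (((m - 1) * t : ℕ) : ℝ) ^ 3 -
        3 * (((m - 1) * t : ℕ) : ℝ) ^ 2 ≤ 6 * (G.card : ℝ) := by
  classical
  obtain ⟨k, rfl⟩ : ∃ k, m = k + 1 := ⟨m - 1, by omega⟩
  have hk2 : 2 ≤ k := by omega
  have hk0 : (0 : ℝ) < k := by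
    have : 0 < k := by omega
    exact_mod_cast this
  have ek : ((k + 1 : ℕ) : ℝ) - 1 = k := by push_cast; ring
  rw [ek]
  have hinj : ∀ i j, f i = f j → i = j := fun i j h => f.injective h
  refine ⟨GG (lab (k + 1 - 1) t) f, fun x y z h1 h2 h3 => mem_GG h1 h2 h3, GG_is3 _ _,
    GG_free _ f hf (by rw [Fintype.card_fin]; omega), GG_noSingle' _ hf hinj,
    GG_link _ hinj, ?_⟩
  have h1 := GG_card (lab (k + 1 - 1) t) f (lab_card _ t)
  rw [Fintype.card_fin] at h1
  have e : k + 1 - 1 = k := rfl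
  have h2 : (((k + 1 - 1) * t : ℕ) : ℝ) = (k : ℝ) * (t : ℝ) := by
    rw [e]; push_cast; ring
  have h3 : 4 / (k : ℝ) ^ 2 * (((k + 1 - 1) * t : ℕ) : ℝ) ^ 3 =
      4 * (((k + 1 - 1) * t : ℕ) : ℝ) * (t : ℝ) ^ 2 := by
    rw [h2]
    field_simp
  rw [sub_mul, one_mul, h3]
  linarith

end CF75
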